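import Mathlib

set_option autoImplicit false
set_option maxHeartbeats 400000

namespace Pool.Agent.Results.MP_d6b04a_al.Refine

universe u

/-- `p` is a point: the elements strictly below `p` have a largest one. -/
def IsPoint {L : Type u} [CompleteLattice L] (p : L) : Prop := ∃ q, IsGreatest {x | x < p} q

/-- `X` refines `Y`. -/
def Refines {L : Type u} [CompleteLattice L] (X Y : Finset L) : Prop := ∀ x ∈ X, ∃ y ∈ Y, x ≤ y

/-- `F` is a minimal join-cover of `p`. -/
def MinimalCover {L : Type u} [CompleteLattice L] (p : L) (F : Finset L) : Prop :=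
  p ≤ F.sup id ∧ ∀ X : Finset L, p ≤ X.sup id → Refines X F → F ⊆ X

variable {L : Type u} [CompleteLattice L]

theorem step [DecidableEq L] [IsModularLattice L]
    (hs : ∀ a : L, ∃ P : Set L, (∀ q ∈ P, IsPoint q) ∧ sSup P = a)
    {p : L} (hp : IsCompactElement p) (N e : L) (h : p ≤ N ⊔ e) :
    ∃ G : Finset L, p ≤ N ⊔ G.sup id ∧ (∀ g ∈ G, g ≤ e) ∧
      ∀ g ∈ G, ∃ q, IsGreatest {x | x < g} q ∧ ¬ p ≤ q ⊔ (N ⊔ (G.erase g).sup id) := by
  obtain ⟨P, hP, hP'⟩ := hs (e ⊓ (p ⊔ N))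
  have h1 : p ≤ sSup (insert N P) := by
    rw [sSup_insert, hP', ← sup_inf_assoc_of_le e le_sup_right]
    exact le_inf h le_sup_left
  obtain ⟨t, ht, ht'⟩ := (CompleteLattice.isCompactElement_iff_exists_le_sSup_of_le_sSup L p).1 hp _ h1
  have hex : ∃ n, ∃ G : Finset L, (∀ g ∈ G, g ∈ P) ∧ p ≤ N ⊔ G.sup id ∧ G.card = n := by
    refine ⟨_, t.erase N, fun g hg => ?_, ht'.trans (Finset.sup_le fun x hx => ?_), rfl⟩
    · exact (ht (Finset.mem_of_mem_erase hg)).resolve_left (Finset.ne_of_mem_erase hg)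
    · by_cases hx' : x = N
      · exact hx'.le.trans le_sup_left
      · exact le_sup_of_le_right (Finset.le_sup (f := id) (Finset.mem_erase.2 ⟨hx', hx⟩))
  classical
  obtain ⟨G, hG, hG1, hG2⟩ := Nat.find_spec hex
  have hle : ∀ g ∈ G, g ≤ e ⊓ (p ⊔ N) := fun g hg => hP' ▸ le_sSup (hG g hg)
  refine ⟨G, hG1, fun g hg => (hle g hg).trans inf_le_left, fun g hg => ?_⟩
  obtain ⟨q, hq⟩ := hP g (hG g hg)
  refine ⟨q, hq, fun k => ?_⟩
  have h2 : g ≤ q ⊔ (N ⊔ (G.erase g).sup id) :=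
    (hle g hg).trans (inf_le_right.trans (sup_le k (le_sup_of_le_right le_sup_left)))
  have h3 : g = q ⊔ (N ⊔ (G.erase g).sup id) ⊓ g := by
    rw [← sup_inf_assoc_of_le _ hq.1.le]
    exact (inf_eq_right.2 h2).symm
  have h4 : g ≤ N ⊔ (G.erase g).sup id := by
    by_contra h5
    have : (N ⊔ (G.erase g).sup id) ⊓ g ≤ q :=
      hq.2 (lt_of_le_of_ne inf_le_right fun k => h5 (inf_eq_right.1 k))
    rw [sup_eq_left.2 this] at h3
    exact hq.1.ne h3.symm
  refine Nat.find_min hex (m := (G.erase g).card) (hG2 ▸ Finset.card_erase_lt_of_mem hg)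
    ⟨G.erase g, fun x hx => hG x (Finset.mem_of_mem_erase hx), hG1.trans ?_, rfl⟩
  refine sup_le le_sup_left (Finset.sup_le fun x hx => ?_)
  by_cases hx' : x = g
  · exact hx'.le.trans h4
  · exact le_sup_of_le_right (Finset.le_sup (f := id) (Finset.mem_erase.2 ⟨hx', hx⟩))

theorem main [DecidableEq L] [IsModularLattice L]
    (hs : ∀ a : L, ∃ P : Set L, (∀ q ∈ P, IsPoint q) ∧ sSup P = a)
    {p : L} (hp : IsCompactElement p) (T : Finset L) : ∀ N : L, p ≤ N ⊔ T.sup id →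
    ∃ G : Finset L, p ≤ N ⊔ G.sup id ∧ Refines G T ∧
      ∀ g ∈ G, ∃ q, IsGreatest {x | x < g} q ∧ ¬ p ≤ q ⊔ (N ⊔ (G.erase g).sup id) := by
  induction T using Finset.induction_on with
  | empty => exact fun N h => ⟨∅, h, by simp [Refines], by simp⟩
  | insert e T _ ih =>
    intro N h
    obtain ⟨G, h1, h2, h3⟩ := step hs hp (N ⊔ T.sup id) e
      (by rwa [Finset.sup_insert, id, sup_comm e, ← sup_assoc] at h)
    obtain ⟨H, k1, k2, k3⟩ := ih (N ⊔ G.sup id) (by rwa [sup_right_comm])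
    have hH : H.sup id ≤ T.sup id := Finset.sup_le fun x hx => by
      obtain ⟨y, hy, hxy⟩ := k2 x hx
      exact hxy.trans (Finset.le_sup (f := id) hy)
    refine ⟨G ∪ H, by rwa [Finset.sup_union, ← sup_assoc], fun x hx => ?_, fun g hg => ?_⟩
    · rcases Finset.mem_union.1 hx with hx | hx
      · exact ⟨e, by simp, h2 x hx⟩
      · obtain ⟨y, hy, hxy⟩ := k2 x hx
        exact ⟨y, by simp [hy], hxy⟩
    · rw [Finset.erase_union_distrib, Finset.sup_union]
      rcases Finset.mem_union.1 hg with hg | hg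
      · obtain ⟨q, hq, hq'⟩ := h3 g hg
        refine ⟨q, hq, fun k => hq' (k.trans (sup_le_sup_left ?_ _))⟩
        rw [sup_assoc, sup_comm (T.sup id)]
        exact sup_le_sup_left (sup_le_sup_left
          ((Finset.sup_mono (Finset.erase_subset _ _)).trans hH) _) _
      · obtain ⟨q, hq, hq'⟩ := k3 g hg
        refine ⟨q, hq, fun k => hq' (k.trans (sup_le_sup_left ?_ _))⟩
        rw [sup_assoc]
        gcongr
        exact Finset.erase_subset _ _

theorem result {L : Type u} [CompleteLattice L] [IsModularLattice L] [IsCompactlyGenerated L]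
    (hs : ∀ a : L, ∃ P : Set L, (∀ q ∈ P, IsPoint q) ∧ sSup P = a)
    (p : L) (hp : IsCompactElement p) (E : Finset L) (hE : p ≤ E.sup id) :
    ∃ F : Finset L, MinimalCover p F ∧ Refines F E := by
  classical
  obtain ⟨F, h1, h2, h3⟩ := main hs hp E ⊥ (by simpa using hE)
  refine ⟨F, ⟨by simpa using h1, fun X hX hXF f hf => ?_⟩, h2⟩
  by_contra hn
  obtain ⟨q, hq, hq'⟩ := h3 f hf
  refine hq' (hX.trans (Finset.sup_le fun x hx => ?_))
  obtain ⟨y, hy, hxy⟩ := hXF x hx
  by_cases hyf : y = f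
  · exact le_sup_of_le_left (hq.2 (lt_of_le_of_ne (hyf ▸ hxy) fun k => hn (k ▸ hx)))
  · exact le_sup_of_le_right (le_sup_of_le_right
      (hxy.trans (Finset.le_sup (f := id) (Finset.mem_erase.2 ⟨hyf, hy⟩))))

end Pool.Agent.Results.MP_d6b04a_al.Refine
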